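import Mathlib
import Pool.Agent.H466Z.AssocMain

/-!
The discriminant exponent of the associated-form contravariant is `p(n,d) = 1` for all `n ≥ 2`,
`d ≥ 3`; more precisely every `p_i` equals `1`.
-/

set_option autoImplicit false

namespace Pool.Agent.Results.MP_ee1e03_al.ExponentOne

open MvPolynomial

/-- Exponent vectors of total degree `d` in `n` variables. They index the coefficients of a form of
degree `d`, so that `MvPolynomial (Expo n d) ℂ` is the coordinate ring `ℂ[V]` of the space `V` of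
forms of degree `d`. -/
abbrev Expo (n d : ℕ) : Type := {α : Fin n →₀ ℕ // α.degree = d}

/-- The value of the polynomial function `P ∈ ℂ[V]` at the form `f`. -/
noncomputable def valueAt {n d : ℕ} (P : MvPolynomial (Expo n d) ℂ)
    (f : MvPolynomial (Fin n) ℂ) : ℂ :=
  MvPolynomial.eval (fun α : Expo n d => MvPolynomial.coeff α.1 f) P

/-- `Δ` is the discriminant (unique up to a nonzero scalar): an irreducible polynomial function on
`V` which vanishes exactly at the forms whose partial derivatives have a common nonzero zero. -/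
def IsDiscriminant (n d : ℕ) (Δ : MvPolynomial (Expo n d) ℂ) : Prop :=
  Irreducible Δ ∧ ∀ f : MvPolynomial (Fin n) ℂ, f.IsHomogeneous d →
    (valueAt Δ f = 0 ↔
      ∃ z : Fin n → ℂ, z ≠ 0 ∧ ∀ j : Fin n, MvPolynomial.eval z (MvPolynomial.pderiv j f) = 0)

/-- The ideal generated by the partial derivatives of `f`. -/
noncomputable def jacobianIdeal {n : ℕ} (f : MvPolynomial (Fin n) ℂ) :
    Ideal (MvPolynomial (Fin n) ℂ) :=
  Ideal.span (Set.range fun j : Fin n => MvPolynomial.pderiv j f)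

/-- The Hessian determinant of `f`. -/
noncomputable def hessian {n : ℕ} (f : MvPolynomial (Fin n) ℂ) : MvPolynomial (Fin n) ℂ :=
  Matrix.det (Matrix.of fun i j : Fin n => MvPolynomial.pderiv i (MvPolynomial.pderiv j f))

/-- In the Milnor algebra `M_f`, the class of the monomial `z ^ i` is `m` times the class of the
Hessian determinant. -/
def IsMu {n : ℕ} (f : MvPolynomial (Fin n) ℂ) (i : Fin n →₀ ℕ) (m : ℂ) : Prop :=
  Ideal.Quotient.mk (jacobianIdeal f) (MvPolynomial.monomial i (1 : ℂ)) =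
    m • Ideal.Quotient.mk (jacobianIdeal f) (hessian f)

/-- The number `μ_i(f)`. -/
noncomputable def mu {n : ℕ} (f : MvPolynomial (Fin n) ℂ) (i : Fin n →₀ ℕ) : ℂ :=
  Classical.epsilon (IsMu f i)

/-- The integers `k` for which `Δ ^ k * μ_i`, a function on the nondegenerate forms of degree `d`,
is (the restriction of) a polynomial function on `V`; `p_i` is the least element of this set. -/
def exponents (n d : ℕ) (Δ : MvPolynomial (Expo n d) ℂ) (i : Fin n →₀ ℕ) : Set ℤ :=
  {k : ℤ | ∃ P : MvPolynomial (Expo n d) ℂ, ∀ f : MvPolynomial (Fin n) ℂ, f.IsHomogeneous d →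
    valueAt Δ f ≠ 0 → valueAt Δ f ^ k * mu f i = valueAt P f}

open Pool.Agent.H466Z.Assoc in
theorem isMu_iff {n : ℕ} (f : MvPolynomial (Fin n) ℂ) (i : Fin n →₀ ℕ) (m : ℂ) :
    IsMu f i m ↔ monomial i 1 - C m * (hessM f).det ∈ jacI f := by
  have h1 : hessian f = (hessM f).det := by
    rw [hessian, ← Matrix.det_transpose]; rfl
  have h2 : m • Ideal.Quotient.mk (jacobianIdeal f) (hessian f) =
      Ideal.Quotient.mk (jacobianIdeal f) (C m * hessian f) := by
    rw [← smul_eq_C_mul]; rfl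
  rw [IsMu, h2, Ideal.Quotient.eq, h1]
  rfl

open Pool.Agent.H466Z.Assoc in
theorem result (n d : ℕ) (hn : 2 ≤ n) (hd : 3 ≤ d) :
    (∃ Δ : MvPolynomial (Expo n d) ℂ, IsDiscriminant n d Δ) ∧
    ∀ Δ : MvPolynomial (Expo n d) ℂ, IsDiscriminant n d Δ →
      ∀ i : Fin n →₀ ℕ, i.degree = n * (d - 2) →
        (∀ f : MvPolynomial (Fin n) ℂ, f.IsHomogeneous d → valueAt Δ f ≠ 0 →
          ∃! m : ℂ, IsMu f i m) ∧
        IsLeast (exponents n d Δ i) 1 := by
  have hd2 : 2 ≤ d := by omega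
  refine ⟨exists_disc (by omega) hd2, fun Δ hΔ i hi => ?_⟩
  have hval : ∀ (P : Co n d) (f : MvPolynomial (Fin n) ℂ), valueAt P f = ev d f P := fun _ _ => rfl
  have hvan : Van Δ := fun f hf p hp hs => (hΔ.2 f hf).2 ⟨p, hp, hs⟩
  have hns : ∀ f : MvPolynomial (Fin n) ℂ, f.IsHomogeneous d → NonSing f → ev d f Δ ≠ 0 := by
    intro f hf hn' h
    obtain ⟨p, hp, hs⟩ := (hΔ.2 f hf).1 h
    exact hp (hn' p hs)
  obtain ⟨c, hc⟩ := hvan.exists_num hd2
  have hex : ∀ f : MvPolynomial (Fin n) ℂ, f.IsHomogeneous d → ev d f Δ ≠ 0 →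
      IsMu f i (ev d f (c ⟨i, hi⟩) / ev d f Δ) :=
    fun f hf h => (isMu_iff f i _).2 (hc.spec' hf h ⟨i, hi⟩)
  have huniq : ∀ f : MvPolynomial (Fin n) ℂ, f.IsHomogeneous d → ev d f Δ ≠ 0 →
      ∀ a b : ℂ, IsMu f i a → IsMu f i b → a = b :=
    fun f hf h a b ha hb => coeff_unique (hc.hess_not_mem hd2 hf h) ((isMu_iff f i _).1 ha)
      ((isMu_iff f i _).1 hb)
  have hmu : ∀ f : MvPolynomial (Fin n) ℂ, f.IsHomogeneous d → ev d f Δ ≠ 0 →
      IsMu f i (mu f i) := fun f hf h => Classical.epsilon_spec ⟨_, hex f hf h⟩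
  refine ⟨fun f hf h => ⟨_, hex f hf h, fun b hb => huniq f hf h _ _ hb (hex f hf h)⟩, ?_, ?_⟩
  · refine ⟨c ⟨i, hi⟩, fun f hf h => ?_⟩
    rw [hval] at h
    rw [hval, hval, huniq f hf h _ _ (hmu f hf h) (hex f hf h), zpow_one]
    field_simp
  · rintro k ⟨P, hP⟩
    by_contra hk
    obtain ⟨m, rfl⟩ : ∃ m : ℕ, k = -(m : ℤ) := ⟨(-k).toNat, by omega⟩
    refine not_poly (by omega) hd2 i hi
      (hc.hess_not_mem hd2 exF_homog (hns _ exF_homog (exF_nonSing hd2))) (Δ ^ m * P) ?_
    intro f hf hn'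
    have h := hns f hf hn'
    have h1 := hP f hf h
    rw [hval, hval, zpow_neg, zpow_natCast] at h1
    have h2 : ev d f (Δ ^ m * P) = mu f i := by
      rw [map_mul, map_pow, ← h1]
      field_simp
    rw [h2]
    exact (isMu_iff f i _).1 (hmu f hf h)

end Pool.Agent.Results.MP_ee1e03_al.ExponentOne
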